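import Pool.Agent.Lib.MP_d610d0_nt.CA.LC.Stm
import Pool.Agent.Lib.MP_d610d0_nt.CH.D.p_gs
import Pool.Agent.Lib.MP_d610d0_nt.CH.D.p_pr
import Pool.Agent.Lib.MP_d610d0_nt.CH.D.p_ls
import Pool.Agent.Lib.MP_d610d0_nt.CH.D.p_kf
import Pool.Agent.Lib.MP_d610d0_nt.CH.D.p_kb
import Pool.Agent.Lib.MP_d610d0_nt.CH.D.p_spc
import Pool.Agent.Lib.MP_d610d0_nt.CH.D.p_bA
import Pool.Agent.Lib.MP_d610d0_nt.CH.D.p_tI
import Pool.Agent.Lib.MP_d610d0_nt.CA.LC.P.blk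
import Pool.Agent.Lib.MP_d610d0_nt.CA.LC.P.dvm
import Pool.Agent.Lib.MP_d610d0_nt.CA.LC.P.cof
import Pool.Agent.Lib.MP_d610d0_nt.CA.LC.P.cvl
import Pool.Agent.Lib.MP_d610d0_nt.CA.LC.P.bil
import Pool.Agent.Lib.MP_d610d0_nt.CA.LC.P.LBa
import Pool.Agent.Lib.MP_d610d0_nt.CA.LC.P.tiv
import Pool.Agent.Lib.MP_d610d0_nt.CA.LC.P.LBb
import Pool.Agent.Lib.MP_d610d0_nt.CA.LC.P.vsm
import Pool.Agent.Lib.MP_d610d0_nt.CA.LC.P.o1
import Pool.Agent.Lib.MP_d610d0_nt.CA.LC.P.o2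
import Pool.Agent.Lib.MP_d610d0_nt.CA.LC.P.pla
import Pool.Agent.Lib.MP_d610d0_nt.CA.LC.P.der
import Pool.Agent.Lib.MP_d610d0_nt.CA.LC.P.lms
import Pool.Agent.Lib.MP_d610d0_nt.CA.LC.P.poi
import Pool.Agent.Lib.MP_d610d0_nt.CA.LC.P.A4
import Pool.Agent.Lib.MP_d610d0_nt.CA.LC.P.fm5
import Pool.Agent.Lib.MP_d610d0_nt.CA.LC.P.fm4
import Pool.Agent.Lib.MP_d610d0_nt.CA.LC.P.hyb
import Pool.Agent.Lib.MP_d610d0_nt.CA.LC.P.tri
import Pool.Agent.Lib.MP_d610d0_nt.CA.LC.P.LBc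
import Pool.Agent.Lib.MP_d610d0_nt.CA.LC.P.cmb
import Pool.Agent.Lib.MP_d610d0_nt.CA.LC.P.cmp
import Pool.Agent.Lib.MP_d610d0_nt.CA.LC.P.LBm
import Pool.Agent.Lib.MP_d610d0_nt.CA.LC.P.LL
import Pool.Agent.Lib.MP_d610d0_nt.CA.LC.P.dya
import Pool.Agent.Lib.MP_d610d0_nt.CA.LC.P.bxp
import Pool.Agent.Lib.MP_d610d0_nt.CA.LC.P.LB
import Pool.Agent.Lib.MP_d610d0_nt.CA.LC.P.LT

set_option autoImplicit false

/-!
Assembly of section LC.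
-/

namespace Pool.Agent.CA.LC

open Pool.Agent.CH.D (p_gs p_pr p_ls p_kf p_kb p_spc p_bA p_tI)

theorem h_ls : Pool.Agent.CH.D.R_ls := p_ls (p_pr p_gs)

theorem h_cof : R_cof := p_cof p_dvm

theorem h_bil : R_bil := p_bil (p_bA h_ls)

theorem h_LBa : R_LBa := p_LBa h_bil h_cof p_cvl p_spc

theorem h_LBb : R_LBb := p_LBb p_tiv p_dvm h_cof p_cvl p_spc

theorem h_lms : R_lms := p_lms p_o2 p_pla p_vsm

theorem h_poi : R_poi := p_poi p_gs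

theorem h_A4 : R_A4 := p_A4 h_ls p_dvm

theorem h_fm5 : R_fm5 := p_fm5 h_poi h_A4 p_der h_lms p_o1 p_vsm

theorem h_fm4 : R_fm4 := p_fm4 h_fm5

theorem h_hyb : R_hyb := p_hyb h_ls p_kf p_kb

theorem h_tri : R_tri := p_tri h_fm4 h_hyb

theorem h_LBc : R_LBc := p_LBc h_tri h_cof p_cvl p_vsm p_blk p_kf p_kb p_spc

theorem h_LBm : R_LBm := p_LBm h_LBa h_LBb h_LBc p_cmb p_blk h_cof p_spc

/-- Large conductors, the primes (from the decomposition of Heath-Brown). -/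
theorem main_LL (hdec : I_dec) : I_LL := p_LL h_LBm hdec p_spc

/-- Large conductors, boxes of primes. -/
theorem main_LB : I_LB := p_LB h_LBa p_cmp p_dya p_bxp p_blk h_cof p_spc

/-- Large conductors, the majorant. -/
theorem main_LT : I_LT := p_LT h_bil p_dvm p_cvl p_spc p_tI

end Pool.Agent.CA.LC
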