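import Pool.Agent.Lib.MP_d610d0_nt.CA.Blk
import Pool.Agent.Lib.MP_d610d0_nt.CH.D.Stm

set_option autoImplicit false

/-!
Project CA, section LC (large conductors in every window, level `J^(1/2 - ε)`): statements of the pieces
with complete informal proofs. `R_x` is the conclusion, `S_x` the statement to be proved (with the
results it uses as hypotheses).

`L = log J`, `J` large, `xj j = (j + 1/2)^3`, `wJ J j n = tri (2J log (n / xj j))` (zero for `n ≥ 1` unless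
`j^3 < n < (j+1)^3`, `CH.D.R_spc`; careful: `wJ J j 0 = 1`), `pz (-θ) n = n^(iθ)`,
`dp a N θ = ∑_{n ≤ N} a n n^(iθ)`, `kap lam` is Fejer's kernel (`CH.D.R_kf`: its Fourier transform is
`tri (lam u)`; `CH.D.R_kb`: bounds). `primChars R`: the primitive characters of conductor `2 ≤ r ≤ R` (at
most `R^2`, `card_primChars`).
-/

namespace Pool.Agent.CA.LC

open Finset Filter
open scoped ContDiff
open Pool.Agent.MP89da58 (tri primChars)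
open Pool.Agent.BVall (boxL)
open Pool.Agent.CH (zJ wJ wL Rough VV Wt dsum thP EE)
open Pool.Agent.CH.V (pz ex)
open Pool.Agent.CH.D (xj kap dp Sf FL FT R_ls R_kf R_kb R_spc R_bA)

/-! ### Products of blocks -/

/-- Every kind of block is a block. -/
def R_blk : Prop := (∀ f N, Sb f N → Bd f N) ∧ (∀ f N, Mb f N → Bd f N) ∧ (∀ f N, Pb f N → Bd f N)

/-- [CA LC blk] Proof: `Real.smoothTransition t` is `0` for `t ≤ 0`, `1` for `1 ≤ t`, in `[0,1]`, monotone. For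
`x < 1/2` both terms of `Wd x` are `1`, for `x > 2` both are `0` (so `Vs i x = 0` unless `1/2 ≤ x ≤ 2`), and
`0 ≤ Wd x ≤ 1` for `x ≥ 0` (`2 - 2x ≤ 2 - x`, monotone; for `x < 0` it is `0`). `|log x| ≤ log 2 ≤ 1` on `[1/2, 2]`, so
`|Vs i x| ≤ 1`. (`f 0 = 0` for an arithmetic function.) `Mb`: `|μ| ≤ 1` and `a < n` gives `N/2 ≤ a + 1 ≤ n`,
`n ≤ b ≤ N ≤ 2N`. `Pb`: the same. -/
def S_blk : Prop := R_blk

/-- Divisor moments. -/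
def R_dvm : Prop := (∀ m n : ℕ, dm m n ≤ ((n.divisors.card : ℕ) : ℝ) ^ m) ∧
  ∀ k : ℕ, ∃ C : ℕ, ∀ x : ℕ,
    ∑ n ∈ Icc 1 x, ((n.divisors.card : ℕ) : ℝ) ^ k ≤ x * (1 + Real.log x) ^ C

/-- [CA LC dvm] Proof: write `d(n) = n.divisors.card`. (1) Induction on `m`:
`dm (m+1) n = ∑_{e ∣ n} dm m e ≤ ∑_{e ∣ n} d(e)^m ≤ d(n)^(m+1)` (`zeta^(m+1) = zeta^m * zeta`,
`ArithmeticFunction.coe_mul_zeta_apply`). (2) Claim `P(k)`: `∑_{n ≤ x} d(n)^k ≤ x (1 + log x)^(2^k - 1)` for all `x`.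
`P(0)` is clear. Step: `d(n)^(k+1) = ∑_{e ∣ n} d(n)^k ≤ ∑_{e ∣ n} d(e)^k d(n/e)^k` (`d(ab) ≤ d(a) d(b)`:
`Nat.divisors_mul` or an injection), so the sum over `n ≤ x` is at most
`∑_{e ≤ x} d(e)^k ∑_{l ≤ x/e} d(l)^k ≤ ∑_{e ≤ x} d(e)^k (x/e) (1 + log x)^(2^k-1)`, and
`∑_{e ≤ x} d(e)^k/e ≤ (1 + log x)^(2^k)` by partial summation: with `D(t) = ∑_{e ≤ t} d(e)^k` it equals
`D(x)/x + ∑_{t<x} D(t) (1/t - 1/(t+1)) ≤ (1 + log x)^(2^k-1) (1 + ∑_{t<x} 1/(t+1)) ≤ (1 + log x)^(2^k)`. (Compare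
`sum_tau_sq`, `Lib/MP_89da58_nt/LargeTypes.lean`.) -/
def S_dvm : Prop := R_dvm

/-- Coefficients of products of blocks. -/
def R_cof : Prop := ∀ m : ℕ, ∃ C : ℕ, ∀ (f : Fin m → ArithmeticFunction ℂ) (N : Fin m → ℝ),
  (∀ i, Bd (f i) (N i)) → ∀ S : Finset (Fin m),
  (∀ n, ‖(∏ i ∈ S, f i) n‖ ≤ dm m n) ∧
  (∀ n, (∏ i ∈ S, f i) n ≠ 0 → ∏ i ∈ S, N i ≤ 2 ^ m * (n : ℝ) ∧ (n : ℝ) ≤ 2 ^ m * ∏ i ∈ S, N i) ∧
  (∀ X : ℕ, ∑ n ∈ Icc 1 X, ‖(∏ i ∈ S, f i) n‖ ^ 2 ≤ X * (1 + Real.log X) ^ C)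

/-- [CA LC cof] (uses dvm) Proof: `Finset.induction_on S`, first with `S.card` in place of `m` (then use
`S.card ≤ m`, `N i ≥ 1`, and `dm c n ≤ dm m n` for `c ≤ m`: `zeta^m = zeta^c * zeta^(m-c)` and the pair `(n, 1)`).
`(f a * g) n = ∑_{(u,v)} f_a(u) g(v)` over `u v = n`: the norm is at most `∑_{v ∣ n} dm c v = dm (c+1) n`; if it is not
zero some `f_a(u) g(v) ≠ 0`, `N_a/2 ≤ u ≤ 2 N_a`. Third part:
`dm m n ^ 2 ≤ d(n)^(2m)`, `C` from dvm for `2m`. -/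
def S_cof : Prop := R_dvm → R_cof

/-- Products of two arithmetic functions. -/
def R_cvl : Prop := ∀ (g h : ArithmeticFunction ℂ) (M N X : ℕ) (w : ℕ → ℂ),
  (∀ n, g n ≠ 0 → n ≤ M) → (∀ n, h n ≠ 0 → n ≤ N) → (∀ n, X < n → w n = 0) →
  ∑ n ∈ Icc 1 X, (g * h) n * w n = ∑ m ∈ Icc 1 M, ∑ n ∈ Icc 1 N, g m * h n * w (m * n)

/-- [CA LC cvl] Proof: `(g * h) n = ∑ over n.divisorsAntidiagonal`; both sides are equal to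
`∑ g m * h n * w (m n)` over the pairs with `m, n ≥ 1`, `m n ≤ X` (restrict to `m ≤ M`, `n ≤ N`, the other terms
vanish; if `m n > X` then `w (m n) = 0`). Compare `sum_conv` in `Lib/MP_89da58_nt`. -/
def S_cvl : Prop := R_cvl

/-! ### (a) Bilinear forms in one window -/

/-- The bilinear large sieve in one short window. -/
def R_bil : Prop := ∃ C : ℝ, 1 ≤ C ∧ ∀ (J j M N R : ℕ) (a b : ℕ → ℂ), 1 ≤ J → 1 ≤ R →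
  ∑ p ∈ primChars R, ‖∑ m ∈ Icc 1 M, ∑ n ∈ Icc 1 N,
      a m * b n * p.2 ((m * n : ℕ) : ZMod p.1) * (wJ J j (m * n) : ℂ)‖
    ≤ C * Real.sqrt (((R : ℝ) ^ 2 + M / J) * ((R : ℝ) ^ 2 + N / J) *
      ((∑ m ∈ Icc 1 M, ‖a m‖ ^ 2) * ∑ n ∈ Icc 1 N, ‖b n‖ ^ 2))

/-- [CA LC bil] (uses CH.D bA, which is proved: `p_bA`) Proof (compare `CH/D/p_bil.lean`): `lam = 2J`. For
`m, n ≥ 1` `wJ J j (m n) = tri (lam (log m - (log xj - log n))) = lam ∫ boxL lam (log m) s * boxL lam (log xj - log n) s ds`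
(`integral_boxL_mul`), so the inner sum is `lam ∫ A_p(s) B_p(s) ds`, `A_p(s) = ∑ a_m χ(m) boxL lam (log m) s`,
`B_p(s) = ∑ b_n χ(n) boxL lam (log xj - log n) s`, and `∑_p ‖..‖ ≤ lam ∫ ∑_p |A_p| |B_p| ≤
lam (∫ ∑_p |A_p|^2)^(1/2) (∫ ∑_p |B_p|^2)^(1/2)`. The first factor: R_bA. The second one: `boxL lam (y - x) s =
boxL lam x (y - 1/lam - s)` except for ... nothing (both are the indicator of `y - x - 1/lam ≤ s ≤ y - x`), so it is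
R_bA again after the substitution `s ↦ log xj - 1/lam - s` (`integral_sub_left_eq_self`). Total
`2J * C/J * sqrt(..)`. -/
def S_bil : Prop := R_bA → R_bil

/-- Products of blocks which can be grouped. -/
def R_LBa : Prop := ∀ (m A : ℕ) (δ : ℝ), 0 < δ → ∃ B : ℕ, ∀ᶠ J : ℕ in atTop, ∀ R : ℕ,
  (Real.log J) ^ B ≤ (R : ℝ) → (R : ℝ) ≤ (J : ℝ) ^ (4998 / 10000 : ℝ) → ∀ j ∈ Ioc J (2 * J),
  ∀ (f : Fin m → ArithmeticFunction ℂ) (N : Fin m → ℝ), (∀ i, Bd (f i) (N i)) →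
  ∏ i, N i ≤ 2 ^ m * (27 * (J : ℝ) ^ 3) → ∀ S : Finset (Fin m),
  (J : ℝ) ^ (1 + δ) ≤ ∏ i ∈ S, N i → (J : ℝ) ^ (1 + δ) ≤ ∏ i ∈ Sᶜ, N i →
  ∑ p ∈ primChars R, ‖Wf (∏ i, f i) J j p.2‖ ≤ (R : ℝ) * (J : ℝ) ^ 2 / (Real.log J) ^ A

/-- [CA LC LBa] (uses bil, cof, cvl, CH.D spc) Proof: `g = ∏_S f`, `h = ∏_{Sᶜ} f`, `∏ f = g * h`
(`Finset.prod_mul_prod_compl`), `g n ≠ 0 → n ≤ M = ⌊2^m ∏_S N⌋₊`, `h n ≠ 0 → n ≤ M' = ⌊2^m ∏_{Sᶜ} N⌋₊` (R_cof). R_cvl with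
`X = 27 J^3`, `w n = χ(n) wJ J j n` (zero for `n > X`: R_spc) gives the double sum of R_bil. With `K = 8^m * 27`
`M M' ≤ K J^3`, `M, M' ≤ K J^(2-δ)`, `∑|g|^2 ∑|h|^2 ≤ M M' L^(C')` (R_cof; `1 + log M ≤ 5L` say), so the expression under the
root is at most `K J^3 L^(C') (R^4 + R^2 (M + M')/J + M M'/J^2) ≤ K J^3 L^(C') (R^4 + 2 K R^2 J^(1-δ) + K J)`. As
`R^2 ≤ J^(0.9996)` and `R ≥ L^B` this is at most `R^2 J^4 / (C^2 L^(2A))` for `J` large if `2B ≥ 2A + C' + 1`: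
`R^4 J^3 ≤ R^2 J^(3.9996)`; `R^2 J^(4-δ)`; `J^4 ≤ R^2 J^4 L^(-2B)`. -/
def S_LBa : Prop := R_bil → R_cof → R_cvl → R_spc → R_LBa

/-! ### (b) A very long smooth block -/

/-- Smooth character sums in a window. -/
def R_tiv : Prop := ∃ C : ℝ, 0 < C ∧ ∀ (J j e r X : ℕ) (N : ℝ) (i : Fin 2)
  (χ : DirichletCharacter ℂ r), 1 ≤ J → j ∈ Ioc J (2 * J) → 1 ≤ e → 1 ≤ r → χ ≠ 1 → 1 ≤ N →
  ‖∑ l ∈ Icc 1 X, χ (l : ZMod r) * ((Vs i (l / N) : ℝ) : ℂ) * (wJ J j (e * l) : ℂ)‖ ≤ C * r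

/-- [CA LC tiv] Proof: Abel summation as in `CH/D/p_tI.lean` (partial sums of `χ` are at most `r`:
`norm_sum_Icc_char_le`): the sum is at most `r (|g(X)| + ∑_{l<X} |g(l) - g(l+1)|)`, `g(l) = Vs i (l/N) wJ J j (e l)`,
`|g| ≤ 1`. The variation is at most `∑ |Vs i (l/N) - Vs i ((l+1)/N)| + ∑ |wJ J j (e l) - wJ J j (e (l+1))|`; the second
sum is at most `2` (increasing, then decreasing, values in `[0,1]`). First sum: `Vs i` is Lipschitz (smooth with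
compact support, see `blk`, `Real.smoothTransition.contDiff`) with a constant `C1`, and the terms with
`l > 2N` vanish: at most `(2N + 1) C1/N ≤ 3 C1`. -/
def S_tiv : Prop := R_tiv

/-- Products of blocks with a very long smooth block. -/
def R_LBb : Prop := ∀ m A : ℕ, ∀ᶠ J : ℕ in atTop, ∀ R : ℕ,
  (R : ℝ) ≤ (J : ℝ) ^ (4998 / 10000 : ℝ) → 1 ≤ R → ∀ j ∈ Ioc J (2 * J),
  ∀ (f : Fin m → ArithmeticFunction ℂ) (N : Fin m → ℝ), (∀ i, Bd (f i) (N i)) →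
  ∏ i, N i ≤ 2 ^ m * (27 * (J : ℝ) ^ 3) → ∀ k : Fin m, Sb (f k) (N k) →
  (J : ℝ) ^ (2 - 1 / 50000 : ℝ) ≤ N k →
  ∑ p ∈ primChars R, ‖Wf (∏ i, f i) J j p.2‖ ≤ (R : ℝ) * (J : ℝ) ^ 2 / (Real.log J) ^ A

/-- [CA LC LBb] (uses tiv, dvm, cof, cvl, CH.D spc) Proof: `g = ∏_{i ≠ k} f_i` (`S = {k}ᶜ`), `g e ≠ 0 → e ≤ E = ⌊2^m ∏_{i≠k} N i⌋₊
≤ 4^m * 27 * J^(1+1/50000)`. R_cvl: `Wf = ∑_{e ≤ E} g(e) χ(e) ∑_l f_k(l) χ(l) wJ J j (e l)` and R_tiv (`p.2 ≠ 1` for a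
primitive character of conductor `≥ 2`): at most `C R ∑_{e ≤ E} dm m e ≤ C R E (1 + log E)^(C')` (`dm ≤ d^m`, dvm). There are at most `R^2` characters: total `≤ C'' R^3 J^(1+1/50000) L^(C') ≤ R J^(0.9996+1.00002) C'' L^(C')`. -/
def S_LBb : Prop := R_tiv → R_dvm → R_cof → R_cvl → R_spc → R_LBb

/-! ### (c) Two smooth blocks of length about `J`: the fourth moment -/

/-- Smooth functions supported on `[1/2, 2]`. -/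
structure Vsm (V : ℝ → ℝ) : Prop where
  sm : ContDiff ℝ ∞ V
  sp : ∀ x, V x ≠ 0 → 1 / 2 ≤ x ∧ x ≤ 2

/-- The function `(x V(x))'`. -/
noncomputable def V1 (V : ℝ → ℝ) (x : ℝ) : ℝ := deriv (fun u : ℝ => u * V u) x

/-- `∫ V(u) u^(iθ) e(-ξ u) du`. -/
noncomputable def hF (V : ℝ → ℝ) (θ ξ : ℝ) : ℂ := ∫ u : ℝ, (V u : ℂ) * pz (-θ) u * ex (-(ξ * u))

/-- The smooth character sum `∑ χ(n) V(n/N) n^(iθ)`. -/
noncomputable def SV (V : ℝ → ℝ) {r : ℕ} (χ : DirichletCharacter ℂ r) (N θ : ℝ) : ℂ :=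
  ∑ n ∈ Icc 1 ⌊2 * N⌋₊, χ (n : ZMod r) * (V (n / N) : ℂ) * pz (-θ) n

/-- The shapes are smooth. -/
def R_vsm : Prop := (∀ i, Vsm (Vs i)) ∧ (∀ V, Vsm V → Vsm (V1 V)) ∧
  (∀ V, Vsm V → ∃ C : ℝ, 0 < C ∧ (∀ x, |V x| ≤ C) ∧ ∀ (θ ξ : ℝ), ‖hF V θ ξ‖ ≤ C)

/-- [CA LC vsm] Proof: `Real.smoothTransition.contDiff`; `Wd` vanishes outside `[1/2, 2]` (both terms are `1` or both
are `0`); `Wd * log` is smooth at `x ≠ 0` and vanishes near `0`. `V1 V` is smooth, and vanishes outside `[1/2, 2]`: the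
derivative of a function which vanishes in a neighbourhood (the complement of `[1/2,2]` is open). Bound: continuous
with compact support; `|pz| = |ex| = 1` (`pz (-θ) u = exp (iθ log u)`), `‖hF‖ ≤ ∫ |V| ≤ 2 sup |V|`. -/
def S_vsm : Prop := R_vsm

/-- No stationary point: large `ξ`. -/
def R_o1 : Prop := ∀ V, Vsm V → ∃ C : ℝ, 0 < C ∧ ∀ θ ξ : ℝ, 1 ≤ |ξ| → |θ| ≤ |ξ| →
  ‖hF V θ ξ‖ ≤ C / ξ ^ 2

/-- [CA LC o1] Proof: for a smooth `U : ℝ → ℂ` which vanishes outside `[1/2, 2]` and `D(u) = θ - 2πξu` without zero on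
`[1/2, 2]`: `∫ U e^(iφ) = i ∫ (u U/D)' e^(iφ)`, where `e^(iφ(u)) = pz (-θ) u * ex (-(ξ u))`, `φ = θ log u - 2πξu`,
`φ' = D/u` (integration by parts on `[1/2, 2]`; `u U/D` vanishes at the end points by continuity, and it is enough to
work on the interval; or: `(u U e^(iφ)/D)' = (u U/D)' e^(iφ) + i U e^(iφ)` and the integral of the left side is `0`). Here
`|D| ≥ π|ξ| - |θ| ≥ 2|ξ|` and `D' = -2πξ`. With `U = V`: `g = u V/D`, `g' = (uV)'/D + 2πξ uV/D^2`, and apply the formula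
once more to `U = g'`: `∫ V e^(iφ) = -∫ (u g'/D)' e^(iφ)`. All of `(uV)^(k)`, `k ≤ 2`, are bounded (compact support), and
`(u g'/D)'` is a sum of terms each at most `C/ξ^2` on `[1/2, 2]` (every division by `D` gains `1/(2|ξ|)`, the factors
`2πξ/D` are at most `π`). Only smoothness on an open interval around `[1/2,2]` is used. -/
def S_o1 : Prop := R_o1

/-- No stationary point: small `ξ`. -/
def R_o2 : Prop := ∀ V, Vsm V → ∃ C : ℝ, 0 < C ∧ ∀ θ ξ : ℝ, 0 < |θ| → 8 * Real.pi * |ξ| ≤ |θ| →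
  ‖hF V θ ξ‖ ≤ C / |θ|

/-- [CA LC o2] Proof: one integration by parts as in `o1`: now `|D(u)| ≥ |θ| - 4π|ξ| ≥ |θ|/2` on `[1/2, 2]`, `|D'| = 2π|ξ| ≤ |θ|/4`,
so `|(uV/D)'| ≤ C/|θ|`. -/
def S_o2 : Prop := R_o2

/-- Plancherel. -/
def R_pla : Prop := ∀ V, Vsm V → ∃ C : ℝ, 0 < C ∧ ∀ θ : ℝ, Continuous (hF V θ) ∧
  MeasureTheory.Integrable (fun ξ => ‖hF V θ ξ‖ ^ 2) ∧ ∫ ξ : ℝ, ‖hF V θ ξ‖ ^ 2 ≤ C

/-- [CA LC pla] Proof: `G(u) = V(u) pz (-θ) u` is smooth (at `u ≠ 0` because `log` is, and it vanishes near `0`) with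
compact support, hence a Schwartz function; `hF V θ` is its Fourier transform (`Real.fourier_eq..`, `ex (-(ξ u)) =
exp(-2πi ξ u)`), which is a Schwartz function, and Plancherel (Mathlib, Schwartz functions or `LpSpace.lean`):
`∫ ‖hF‖^2 = ∫ |V|^2`. -/
def S_pla : Prop := R_pla

/-- The derivative. -/
def R_der : Prop := ∀ V, Vsm V → ∀ (θ c s u : ℝ), 0 < c → (s = 1 ∨ s = -1) → 0 < u →
  HasDerivAt (fun u : ℝ => pz (-θ) (u * c) * hF V θ (s * (u * c)))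
    (-(1 / (u : ℂ)) * (pz (-θ) (u * c) * hF (V1 V) θ (s * (u * c)))) u

/-- [CA LC der] Proof: let `y = u c`. `(hF V θ)'(ξ) = ∫ V(v) v^(iθ) (-2πi v) e(-ξ v) dv`
(`hasDerivAt_integral_of_dominated_loc_of_deriv_le`, or the derivative of the Fourier transform). So the derivative of
`y^(iθ) hF V θ (s y)` with respect to `y` is `(y^(iθ)/y) ∫ V(v) (iθ - 2πi s y v) v^(iθ) e(-s y v) dv =
(y^(iθ)/y) ∫ (v V(v)) (v^(iθ) e(-s y v))' dv = -(y^(iθ)/y) ∫ (vV)'(v) v^(iθ) e(-s y v) dv` (integration by parts, compact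
support in `(0, ∞)`). Chain rule: multiply by `c`, `c/y = 1/u`. -/
def S_der : Prop := R_der

/-- The logarithmic mean square. -/
def R_lms : Prop := ∀ V, Vsm V → ∃ C : ℝ, 0 < C ∧ ∀ (θ X s : ℝ), 1 ≤ X → (s = 1 ∨ s = -1) →
  ∫ ξ in (1 : ℝ)..X, ‖hF V θ (s * ξ)‖ ^ 2 / ξ ≤ C * (1 + Real.log X) / (1 + |θ|)

/-- [CA LC lms] (uses o2, pla, vsm) Proof: `|θ| ≤ 1`: `‖hF‖ ≤ C` (vsm) and `∫_1^X dξ/ξ = log X`. `|θ| > 1`: for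
`ξ ≤ |θ|/(8π)` the integrand is at most `(C/|θ|)^2/ξ` (o2), for `ξ > |θ|/(8π)` it is at most `(8π/|θ|) ‖hF‖^2` and pla. Add
the two bounds pointwise: the integrand is at most `(C/θ)^2/ξ + (8π/|θ|)‖hF V θ (sξ)‖^2`. -/
def S_lms : Prop := R_o2 → R_pla → R_vsm → R_lms

/-- Poisson summation with a primitive character. -/
def R_poi : Prop := ∀ V, Vsm V → ∀ (r : ℕ) [NeZero r] (χ : DirichletCharacter ℂ r), 2 ≤ r →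
  χ.IsPrimitive → ∀ (N θ : ℝ), 0 < N →
  Summable (fun m : ℤ => ‖hF V θ (m * (N / r))‖) ∧
  ‖SV V χ N θ‖ = N / Real.sqrt r * ‖∑' m : ℤ, χ⁻¹ (m : ZMod r) * hF V θ (m * (N / r))‖

/-- [CA LC poi] (uses CH.D gs: `|gaussSum χ stdAddChar|^2 = r`, proved: `CH/D/p_gs.lean`) Proof: `G(u) = V(u) pz (-θ) u`,
a Schwartz function (see `pla`), `hF V θ = 𝓕 G`. As `n^(iθ) = N^(iθ) (n/N)^(iθ)` and `V(n/N) = 0` for `n ≤ 0` and `n > 2N`: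
`SV = N^(iθ) ∑_{n ∈ ℤ} χ(n) G(n/N)`, `|N^(iθ)| = 1`. Split into residue classes `n = a + k r`, `0 ≤ a < r`:
`∑_k G((a + k r)/N) = ∑_k g(a/r + k)` with the Schwartz function `g(x) = G(x r/N)`; `SchwartzMap.tsum_eq_tsum_fourier`
(with the shift `a/r`): `= ∑_m 𝓕g(m) e(m a/r)`, `𝓕g(m) = (N/r) 𝓕G(m N/r)`. And `∑_a χ(a) e(m a/r) = χ⁻¹(m) gaussSum χ`
for all `m` (`gaussSum_mulShift_of_isPrimitive`; see `CH/D/p_pr.lean` for the same computation). So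
`|SV| = (N/r) |gaussSum χ| |∑_m χ⁻¹(m) hF V θ (m N/r)|`. -/
def S_poi : Prop := Pool.Agent.CH.D.R_gs → R_poi

/-- Fourth moment of the dual sums. -/
def R_A4 : Prop := ∃ C : ℕ, ∀ (Q u : ℕ) (θ : ℝ), 1 ≤ Q → 1 ≤ u →
  ∑ p ∈ primChars Q, ‖∑ m ∈ Icc 1 u, p.2⁻¹ (m : ZMod p.1) * pz θ m‖ ^ 4
    ≤ C * ((Q : ℝ) ^ 2 + (u : ℝ) ^ 2) * (u : ℝ) ^ 2 * (1 + Real.log u) ^ C

/-- [CA LC A4] (uses CH.D ls, dvm) Proof: the complex conjugate of the inner sum is `D = ∑_{m ≤ u} χ(m) m^(iθ)`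
(`conj (pz θ m) = pz (-θ) m`; `χ⁻¹ = conj χ` pointwise). `D^2 = ∑_{n ≤ u^2} c(n) χ(n) n^(iθ)`,
`c(n) = #{(a,b) : ab = n, a, b ≤ u} ≤ d(n)`. R_ls with `K = 0`, `N = u^2`, `x_n = c(n) n^(iθ)`:
`∑_p |D^2|^2 ≤ C (u^2 + Q^2) ∑_{n ≤ u^2} d(n)^2 ≤ C (u^2 + Q^2) u^2 (1 + 2 log u)^(C')` (R_dvm). -/
def S_A4 : Prop := R_ls → R_dvm → R_A4

/-- Fourth moment, conductors in a dyadic range. -/
def R_fm5 : Prop := ∀ V, Vsm V → ∃ C : ℕ, ∀ (Q N θ : ℝ), 1 ≤ Q → 2 * Q ≤ N →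
  ∑ p ∈ (primChars ⌊2 * Q⌋₊).filter (fun p => Q < (p.1 : ℝ)), ‖SV V p.2 N θ‖ ^ 4
    ≤ C * (N * Q) ^ 2 * (1 + ((1 + |θ|) / N) ^ 2) * (1 + Real.log N + Real.log (1 + |θ|)) ^ C

/-- [CA LC fm5] (uses poi, A4, der, lms, o1, vsm) Proof: fix `V`, `τ = 1 + |θ|`. `C1, C2, ..` depend on `V` only. For each
character `χ` mod `r`, `Q < r ≤ 2Q`, `c = N/r ≥ 1`: by poi `‖SV‖ ≤ (N/√Q) (‖T_1‖ + ‖T_{-1}‖)`,
`T_s = ∑_{m ≥ 1} χ⁻¹(m) hF V θ (s m c)` (`χ⁻¹(-m) = χ⁻¹(-1) χ⁻¹(m)`, `χ⁻¹(0) = 0`). Let `M = ⌊2Qτ/N⌋₊`. For `m ≥ M + 1`: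
`m c ≥ (M+1) N/(2Q) > τ ≥ max(1, |θ|)`, so by o1 `‖hF V θ (s m c)‖ ≤ C1 (r/(m N))^2`, and the tail is at most
`C1 (2Q/N)^2 ∑_{m > M} m^(-2) ≤ C1 (2Q/N)^2 * 2/(M+1) ≤ 2 C1 (2Q/N)^2 min(1, N/(2Qτ))`; times `N/√Q` it is at most
`C2 √Q` (`≤ 2 C1 (4Q^2/N^2)(N/(2Q)) N/√Q`). The number of characters is at most `4Q^2`, so the tails contribute
`≤ C3 Q^4 ≤ C3 (N Q)^2`. If `M = 0` this is all. Let `M ≥ 1`, so `M ≤ 2Qτ/N`, `1 ≤ 2Qτ/N`. With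
`A(u) = ∑_{m ≤ u} χ⁻¹(m) pz θ m` (`pz θ m = m^(-iθ)`) and `h(u) = pz (-θ) (u c) hF V θ (s u c)`:
`∑_{m ≤ M} χ⁻¹(m) hF V θ (s m c) = c^(-iθ) ∑_{m ≤ M} χ⁻¹(m) m^(-iθ) h(m)`, and by Abel's summation (Mathlib
`sum_mul_eq_sub_integral_mul..`) and der `= c^(-iθ) (A(M) h(M) + ∫_1^M A(u) u^(-1) pz (-θ) (uc) hF (V1 V) θ (s u c) du)`.
`|h(M)|`: if `M c ≥ τ` then `≤ C1/τ^2` (o1); in any case use instead `M' = M + 1` as the cut: sum over `m ≤ M + 1`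
(then `(M+1) c ≥ τ`, `|h(M+1)| ≤ C1/τ^2 ≤ C1 τ^(-1/2)`, and `M + 1 ≤ 2M`). By Hoelder
`|∫_1^(M') |A| |hF(..)| du/u| ≤ (∫_1^(M') |A|^4 du/u)^(1/4) (∫_1^(M') |hF (V1 V) θ (s u c)|^2 du/u)^(1/2) (∫_1^(M') du/u)^(1/4)`, and
`∫_1^(M') |hF(V1 V) θ (s u c)|^2 du/u = ∫_c^(M'c) |hF (V1 V) θ (sξ)|^2 dξ/ξ ≤ C4 (1 + log (M' c))/τ` (lms, `c ≥ 1`). The fourth power of
the main part is at most `C5 τ^(-2) ℓ^3 (|A(M')|^4 + ∫_1^(M') |A(u)|^4 du/u)`, `ℓ = 1 + log N + log τ`. Sum over the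
characters with A4 (`Q := ⌊2Q⌋₊`, `u := ⌊u⌋₊`): `∑_p |A(u)|^4 ≤ C (4Q^2 + u^2) u^2 ℓ^C ≤ C (4Q^2 + M'^2) M'^2 ℓ^C`. Total
`≤ C6 (N/√Q)^4 τ^(-2) (4Q^2 + M'^2) M'^2 ℓ^(C')` with `M' ≤ 4Qτ/N`: `(N^4/Q^2) τ^(-2) (4Q^2 + 16Q^2τ^2/N^2)(16Q^2τ^2/N^2) =
64 N^2 Q^2 (1 + 4τ^2/N^2)`. -/
def S_fm5 : Prop := R_poi → R_A4 → R_der → R_lms → R_o1 → R_vsm → R_fm5

/-- Fourth moment of smooth character sums at a fixed height. -/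
def R_fm4 : Prop := ∀ V, Vsm V → ∃ C : ℕ, ∀ (R : ℕ) (N θ : ℝ), 1 ≤ R → 2 * (R : ℝ) ≤ N →
  ∑ p ∈ primChars R, ‖SV V p.2 N θ‖ ^ 4
    ≤ C * (N * R) ^ 2 * (1 + ((1 + |θ|) / N) ^ 2) * (1 + Real.log N + Real.log (1 + |θ|)) ^ C

/-- [CA LC fm4] (uses fm5) Proof: let `Q_i = R/2^(i+1)` (real). Every `r ∈ [2, R]` lies in `(Q_i, 2Q_i]` for exactly one `i ≥ 0`,
and then `2Q_i ≥ r ≥ 2`, `Q_i ≥ 1`, so only `i < R` with `Q_i ≥ 1` occur; `primChars R` is covered by the filtered sets of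
fm5 (`p ∈ primChars ⌊2Q_i⌋₊`). `∑_i Q_i^2 ≤ R^2`, `2Q_i ≤ R ≤ N`. -/
def S_fm4 : Prop := R_fm5 → R_fm4

/-- The hybrid mean value theorem. -/
def R_hyb : Prop := ∃ C : ℝ, 1 ≤ C ∧ ∀ (R N : ℕ) (a : ℕ → ℂ) (T : ℝ), 1 ≤ R → 1 ≤ T →
  ∫ θ in (-T)..T, ∑ p ∈ primChars R, ‖dp (fun n => a n * p.2 (n : ZMod p.1)) N θ‖ ^ 2
    ≤ C * ((R : ℝ) ^ 2 * T + N) * ∑ n ∈ Icc 1 N, ‖a n‖ ^ 2

/-- [CA LC hyb] (uses CH.D ls, kf, kb, all proved) Proof: `kap T ≥ 1/(8T)` on `[-T, T]` (R_kb), so the left side is at most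
`8T ∑_p ∫ kap T θ |dp (aχ) N θ|^2 dθ`. For `b = a χ`: `∫ kap T |dp b N|^2 = ∑_{m,n} b_m conj(b_n) tri (T (log m - log n))` (R_kf,
see `CH/D/p_sch.lean`) `= T ∫ |∑_n b_n boxL T (log n) s|^2 ds` (`integral_boxL_mul`, `T ≥ 1`). For fixed `s` the `n` with
`boxL T (log n) s = 1` satisfy `e^s ≤ n ≤ e^(s+1/T)`, `n ≤ N`: they lie in an interval `Ioc K (K+N')`,
`N' ≤ 1 + N (e^(1/T) - 1) ≤ 1 + 2N/T` (see `bA_point` in `CH/D/p_bA.lean`, the same argument with `T` for `2J`), and R_ls gives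
`∑_p |..|^2 ≤ C (1 + 2N/T + R^2) ∑_n |a_n|^2 boxL T (log n) s`. `∫ boxL = 1/T`. Total
`8T * T * C (1 + 2N/T + R^2)(1/T) ∑|a|^2 ≤ 16 C (R^2 T + N) ∑|a|^2` (`R ≥ 1`). -/
def S_hyb : Prop := R_ls → R_kf → R_kb → R_hyb

/-- The integral over a dyadic range. -/
def R_tri : Prop := ∀ V W, Vsm V → Vsm W → ∀ᶠ J : ℕ in atTop, ∀ (R X : ℕ) (N1 N2 T : ℝ) (b : ℕ → ℂ),
  1 ≤ R → (R : ℝ) ≤ (J : ℝ) ^ (4998 / 10000 : ℝ) →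
  (J : ℝ) ^ (1 - 1 / 50000 : ℝ) ≤ N1 → N1 ≤ (J : ℝ) ^ (1 + 1 / 50000 : ℝ) →
  (J : ℝ) ^ (1 - 1 / 50000 : ℝ) ≤ N2 → N2 ≤ (J : ℝ) ^ (1 + 1 / 50000 : ℝ) →
  (X : ℝ) ≤ (J : ℝ) ^ (1 + 1 / 20000 : ℝ) →
  ∑ n ∈ Icc 1 X, ‖b n‖ ^ 2 ≤ (J : ℝ) ^ (1 + 1 / 15000 : ℝ) → (J : ℝ) ≤ T → T ≤ 2 * (J : ℝ) ^ 3 →
  ∫ θ in (-T)..T, ∑ p ∈ primChars R,
      ‖SV V p.2 N1 θ‖ * ‖SV W p.2 N2 θ‖ * ‖dp (fun n => b n * p.2 (n : ZMod p.1)) X θ‖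
    ≤ (R : ℝ) ^ 2 * T ^ 2 * (J : ℝ) ^ (1 / 2 + 1 / 9000 : ℝ)

/-- [CA LC tri] (uses fm4, hyb) Proof: `ε = 1/50000`. Hoelder for sums over `p` and integrals over `[-T, T]` (all functions are
continuous): `≤ (∫∑|S1|^4)^(1/4) (∫∑|S2|^4)^(1/4) (∫∑|D|^2)^(1/2)` (Cauchy-Schwarz twice). fm4 (`2R ≤ N1`):
`∫∑|S1|^4 ≤ 2T C R^2 (N1^2 + (1+T)^2) ℓ^C ≤ T^3 R^2 J^(2ε + 1/200000)` for `J` large, as `N1^2 ≤ J^(2+2ε) ≤ T^2 J^(2ε)`,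
`(1+T)^2 ≤ 4T^2`, `ℓ ≤ 10 L`, and powers of `L` and constants are `≤ J^(1/200000)`. The same for `S2`. hyb:
`∫∑|D|^2 ≤ C (R^2 T + X) J^(1+1/15000) ≤ R^2 T J^(1 + 1/20000 + 1/15000 + 1/200000)` (`X ≤ J * J^(1/20000) ≤ T J^(1/20000)`). Product of the
square roots: `(T^3 R^2)^(1/2) (R^2 T J)^(1/2) J^e = R^2 T^2 J^(1/2 + e)` with
`e = 1/50000 + 1/400000 + (1/20000 + 1/15000 + 1/200000)/2 = 0.0000225 + 0.0000608.. < 1/9000 = 0.000111..`. -/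
def S_tri : Prop := R_fm4 → R_hyb → R_tri

/-- Products of blocks with two smooth blocks of length about `J`. -/
def R_LBc : Prop := ∀ m A : ℕ, ∀ᶠ J : ℕ in atTop, ∀ R : ℕ,
  (R : ℝ) ≤ (J : ℝ) ^ (4998 / 10000 : ℝ) → 1 ≤ R → ∀ j ∈ Ioc J (2 * J),
  ∀ (f : Fin m → ArithmeticFunction ℂ) (N : Fin m → ℝ), (∀ i, Bd (f i) (N i)) →
  ∏ i, N i ≤ 2 ^ m * (27 * (J : ℝ) ^ 3) → ∀ k l : Fin m, k ≠ l → Sb (f k) (N k) → Sb (f l) (N l) →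
  (J : ℝ) ^ (1 - 1 / 50000 : ℝ) ≤ N k → N k ≤ (J : ℝ) ^ (1 + 1 / 50000 : ℝ) →
  (J : ℝ) ^ (1 - 1 / 50000 : ℝ) ≤ N l → N l ≤ (J : ℝ) ^ (1 + 1 / 50000 : ℝ) →
  ∑ p ∈ primChars R, ‖Wf (∏ i, f i) J j p.2‖ ≤ (R : ℝ) * (J : ℝ) ^ 2 / (Real.log J) ^ A

/-- [CA LC LBc] (uses tri, cof, cvl, vsm, CH.D kf, kb, spc) Proof: `b = ∏_{i ≠ k,l} f_i` (as a function on `ℕ`), `b n ≠ 0 → n ≤ X =
⌊2^m ∏_{i≠k,l} N_i⌋₊ ≤ 4^m * 27 * J^(1 + 2/50000) ≤ J^(1+1/20000)`, `∑|b|^2 ≤ X (1 + log X)^C ≤ J^(1+1/15000)` (R_cof). For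
`n ≥ 1`: `wJ J j n = ∫ kap (2J) θ n^(iθ) xj^(-iθ) dθ` (R_kf with `u = log n - log xj`), and `wJ J j n = 0` for `n > 27J^3` (R_spc), so
`Wf (∏ f) = ∑_{n ≤ Y} (∏ f)(n) χ(n) wJ J j n` for `Y = 2^m ∏ N_i` or larger `= ∫ kap (2J) θ xj^(-iθ) S1(θ) S2(θ) D(θ) dθ`, where
`∑_n (f_k * f_l * b)(n) χ(n) n^(iθ) = SV V χ N_k θ * SV W χ N_l θ * dp (bχ) X θ` (R_cvl twice, complete multiplicativity of
`χ(n) n^(iθ)`; `f_k(n) = V(n/N_k)`, `V = Vs i`, vanishes for `n > 2N_k`). Hence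
`∑_p ‖Wf‖ ≤ ∫ kap (2J) θ F(θ) dθ`, `F(θ) = ∑_p |S1||S2||D|`. Ranges: (0) `|θ| ≤ J`: `kap ≤ 1/J`, tri with `T = J`:
`R^2 J^(3/2+1/9000)`. (i) `2^(i-1) J < |θ| ≤ 2^i J`, `1 ≤ i ≤ I`, `I` minimal with `2^I J ≥ J^3` (so `2^I J ≤ 2J^3`, `I ≤ 4L`):
`kap ≤ 4J/(π θ^2) ≤ 16 J/(2^i J)^2`, so tri with `T = 2^i J`: `16 R^2 J^(3/2+1/9000)`. (ii) `|θ| > J^3`: `∫ kap ≤ 3/J^2` (R_kb),
`F ≤ R^2 (3N_k)(3N_l) X^(1/2) (∑|b|^2)^(1/2) ≤ R^2 J^(3+1/5000)`, contribution `≤ 3 R^2 J^(1+1/5000)`. Total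
`≤ 70 L R^2 J^(3/2+1/9000) ≤ R J^2 J^(-0.0002+0.00012) * 70 L`, as `R ≤ J^(0.4998)`. -/
def S_LBc : Prop := R_tri → R_cof → R_cvl → R_vsm → R_blk → R_kf → R_kb → R_spc → R_LBc

/-! ### Combinatorics and assembly -/

/-- Combinatorial lemma. -/
def R_cmb : Prop := ∀ (m : ℕ) (t : Fin m → ℝ) (δ : ℝ), 0 < δ → δ ≤ 1 / 100 → (∀ i, 0 ≤ t i) →
  3 - δ / 2 ≤ ∑ i, t i → ∑ i, t i ≤ 3 + δ / 2 →
  (∃ S : Finset (Fin m), 1 + δ / 2 ≤ ∑ i ∈ S, t i ∧ 1 + δ / 2 ≤ ∑ i ∈ Sᶜ, t i) ∨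
  (∃ k, 2 - 2 * δ ≤ t k) ∨
  (∃ k l, k ≠ l ∧ 1 - 2 * δ ≤ t k ∧ t k ≤ 1 + 2 * δ ∧ 1 - 2 * δ ≤ t l ∧ t l ≤ 1 + 2 * δ)

/-- [CA LC cmb] Proof: it is enough to find `S` with `1 + δ ≤ ∑_S t ≤ 2 - δ` (then `∑_{Sᶜ} ≥ 3 - δ/2 - 2 + δ = 1 + δ/2`).
Greedy lemma: if `U` is a set with `∑_U t ≤ 2 - δ` and `U'` a set disjoint from `U`, all `t_i ≤ 1 - 2δ` for `i ∈ U'`, and
`∑_{U ∪ U'} t ≥ 1 + δ`, then such an `S` exists with `U ⊆ S ⊆ U ∪ U'` (add the elements of `U'` one by one,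
`Finset.induction_on U'`; the steps are at most `1 - 2δ`, the length of `[1+δ, 2-δ]`). Let `Bg = {i : t_i > 1 - 2δ}`. If
`Bg` is empty: `U = ∅`, `U' = univ`. If some `t_k ≥ 2 - 2δ`: second case. If some `t_k` with `1 + δ ≤ t_k < 2 - 2δ`:
`S = {k}`. Otherwise all `i ∈ Bg` satisfy `1 - 2δ < t_i < 1 + δ`. If `Bg` has at least two elements: third case. If
`Bg = {k}`: `U = {k}`, `U' = {k}ᶜ`, total `≥ 3 - δ/2 ≥ 1 + δ`. -/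
def S_cmb : Prop := R_cmb

/-- Heath-Brown's decomposition (proved in `CA/HB.lean` by helper94). -/
def I_dec : Prop := ∀ k : ℕ, 1 ≤ k → ∃ C : ℕ, ∀ᶠ J : ℕ in atTop, ∀ (ι : Type) (P : Finset ι)
  (w : ι → ℕ → ℂ) (K : ℝ) (Z : ℕ), 0 ≤ K → 27 * J ^ 3 ≤ Z ^ k →
  (∀ p n, w p n ≠ 0 → J ^ 3 < 2 * n ∧ n ≤ 27 * J ^ 3) →
  (∀ (f : Fin (2 * k) → ArithmeticFunction ℂ) (N : Fin (2 * k) → ℝ),
    (∀ i, Sb (f i) (N i) ∨ (Mb (f i) (N i) ∧ N i ≤ 2 * (Z : ℝ))) →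
    ∏ i, N i ≤ 2 ^ (2 * k) * (27 * (J : ℝ) ^ 3) →
    ∑ p ∈ P, ‖∑ n ∈ Icc 1 (27 * J ^ 3), (∏ i, f i) n * w p n‖ ≤ K) →
  ∑ p ∈ P, ‖∑ n ∈ Icc 1 (27 * J ^ 3), ((ArithmeticFunction.vonMangoldt n : ℝ) : ℂ) * w p n‖
    ≤ (Real.log J) ^ C * K

/-- A product of smooth and short Möbius blocks. -/
def R_LBm : Prop := ∀ m A : ℕ, ∃ B : ℕ, ∀ᶠ J : ℕ in atTop, ∀ R : ℕ,
  (Real.log J) ^ B ≤ (R : ℝ) → (R : ℝ) ≤ (J : ℝ) ^ (4998 / 10000 : ℝ) → ∀ j ∈ Ioc J (2 * J),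
  ∀ (f : Fin m → ArithmeticFunction ℂ) (N : Fin m → ℝ),
  (∀ i, Sb (f i) (N i) ∨ (Mb (f i) (N i) ∧ N i ≤ (J : ℝ) ^ (4 / 5 : ℝ))) →
  ∏ i, N i ≤ 2 ^ m * (27 * (J : ℝ) ^ 3) →
  ∑ p ∈ primChars R, ‖Wf (∏ i, f i) J j p.2‖ ≤ (R : ℝ) * (J : ℝ) ^ 2 / (Real.log J) ^ A

/-- [CA LC LBm] (uses LBa, LBb, LBc, cmb, blk, cof, CH.D spc) Proof: `J` large. If `∏ N_i < J^3/2^(m+1)`, then `(∏ f) n ≠ 0`
implies `n ≤ 2^m ∏ N_i < J^3/2`, where `wJ J j n = 0` (R_spc), so all sums are `0`. Otherwise put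
`t_i = log N_i / log J ≥ 0`, `δ = 1/100000`; `∑ t_i = log ∏ N_i / log J ∈ [3 - δ/2, 3 + δ/2]` for `J` large. cmb: in the first case
LBa with `δ/2` (`∏_{i ∈ S} N_i = J^(∑_S t)`); in the second case `N_k ≥ J^(2-1/50000) > J^(4/5)`, so `f k` is smooth, LBb; in the third
case both are smooth (`J^(1-1/50000) > J^(4/5)`), LBc. `B` from LBa. (`R ≥ L^B ≥ 1`.) -/
def S_LBm : Prop := R_LBa → R_LBb → R_LBc → R_cmb → R_blk → R_cof → R_spc → R_LBm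

/-- [CA LC LL] (uses LBm, dec) Large conductors for the primes. Proof: `I_dec` with `k = 4` (constant `C`),
`Z = ⌈(27 J^3)^(1/4)⌉₊`, so `2Z ≤ J^(4/5)`, `P = primChars R`, `w p n = p.2 n * wJ J j n` for `n ≥ 1`, `w p 0 = 0`
(support: R_spc), `K = R J^2/L^(A+C)`, hypothesis by LBm with `m = 8`, `A + C`. `Sf (FL J) J j χ = ∑ Λ(n) w`. -/
def S_LL : Prop := R_LBm → I_dec → R_spc → I_LL

/-! ### Products of primes -/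

/-- Combinatorial lemma for products of at least five primes. -/
def R_cmp : Prop := ∀ (m : ℕ) (t : Fin m → ℝ), 5 ≤ m → (∀ i, 1 / 13 ≤ t i) →
  (∀ i, t i ≤ 33 / 20 + 1 / 1000) → 3 - 1 / 1000 ≤ ∑ i, t i → ∑ i, t i ≤ 3 + 1 / 1000 →
  ∃ S : Finset (Fin m), 1 + 1 / 1000 ≤ ∑ i ∈ S, t i ∧ 1 + 1 / 1000 ≤ ∑ i ∈ Sᶜ, t i

/-- [CA LC cmp] Proof: `δ = 1/500`; as in cmb it is enough to find `S` with `1 + δ ≤ ∑_S t ≤ 2 - δ` (then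
`∑_{Sᶜ} ≥ 3 - 1/1000 - 2 + 1/500`). Follow the proof of cmb: `Bg = {i : t_i > 1 - 2δ}`. `Bg` empty: greedy. Some
`t_k ≥ 1 + δ`: `S = {k}` (`t_k ≤ 1.651`). `Bg = {k}`: greedy from `{k}`. `Bg ⊇ {k, l}` with both in `(1 - 2δ, 1 + δ)`: the other
`m - 2 ≥ 3` numbers are positive with sum at most `3.001 - 2 + 4δ ≤ 1.01`, so one of them, `t_i`, is at most `0.34`, and
`t_k + t_i ∈ [1 - 2δ + 1/13, 1 + δ + 0.34] ⊆ [1 + δ, 2 - δ]`. -/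
def S_cmp : Prop := R_cmp

/-- The part of `f` in `[2^e, 2^(e+1))`. -/
noncomputable def cut (f : ArithmeticFunction ℂ) (e : ℕ) : ArithmeticFunction ℂ where
  toFun n := if 2 ^ e ≤ n ∧ n < 2 ^ (e + 1) then f n else 0
  map_zero' := by simp

open Classical in
/-- The indicator function of the primes in `[lo, hi]`. -/
noncomputable def pI (lo hi : ℝ) : ArithmeticFunction ℂ where
  toFun p := if p.Prime ∧ lo ≤ (p : ℝ) ∧ (p : ℝ) ≤ hi then 1 else 0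
  map_zero' := by simp [Nat.not_prime_zero]

/-- Dyadic decomposition of a product. -/
def R_dya : Prop := ∀ (k X : ℕ) (ι : Type) (P : Finset ι) (w : ι → ℕ → ℂ) (K : ℝ)
  (f : Fin k → ArithmeticFunction ℂ), 0 ≤ K → (∀ i n, f i n ≠ 0 → n ≤ X) →
  (∀ e : Fin k → ℕ, ∑ p ∈ P, ‖∑ n ∈ Icc 1 X, (∏ i, cut (f i) (e i)) n * w p n‖ ≤ K) →
  ∑ p ∈ P, ‖∑ n ∈ Icc 1 X, (∏ i, f i) n * w p n‖ ≤ ((Nat.log 2 X + 1 : ℕ) : ℝ) ^ k * K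

/-- [CA LC dya] Proof: let `E = Nat.log 2 X + 1` and `g i e = cut (f i) e`. `f i = ∑_{e < E} g i e` (an `n ≥ 1`, `n ≤ X`, lies
in exactly one block, `e = Nat.log 2 n ≤ Nat.log 2 X`). `∏_i ∑_e g i e = ∑_{e : Fin k → range E} ∏_i g i (e i)`
(`Finset.prod_univ_sum` or `Fintype.piFinset`), evaluate at `n` (`ArithmeticFunction` sums: the coefficient map is additive),
exchange the sums and use the triangle inequality; there are `E^k` tuples. -/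
def S_dya : Prop := R_dya

/-- Boxes of primes as products. -/
def R_bxp : Prop := ∀ (k : ℕ) (lo hi : Fin k → ℝ) (n : ℕ), 1 ≤ n →
  (bx k lo hi n : ℂ) = (∏ i, pI (lo i) (hi i)) n

/-- [CA LC bxp] Proof: induction on `k`, splitting off the first coordinate (`Fin.prod_univ_succ`): the tuples
`q : Fin (k+1) → ℕ` with product `n` correspond to pairs (a prime `p ∣ n` in `[lo 0, hi 0]`, a tuple with product
`n/p`). `(range (n+1))` in the definition of `bx` is no restriction, as all entries divide `n ≥ 1`. Compare `D_dec`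
(`CH/D/p_dec.lean`). For `k = 0` both sides are `[n = 1]`. -/
def S_bxp : Prop := R_bxp

/-- [CA LC LB] (uses LBa, cmp, dya, bxp, blk, cof, CH.D spc) Large conductors for boxes. Proof: `F = ∏ f_i` with the prime
indicators of bxp (`n ≥ 1`), cut off at `n ≤ 27J^3` (an entry dividing `n ≤ 27 J^3`). R_dya with `X = 27 J^3`,
`w p n = p.2 n * wJ J j n` (`0` at `n = 0`), `(Nat.log 2 X + 1)^k ≤ L^(k+1)`. For each `e` the functions `g_i = cut (f_i) (e_i)` satisfy `Bd (g_i) (2^(e_i + 1))`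
(`2^(e_i) ≤ n ≤ 2^(e_i + 1)`). If some `g_i = 0` or `∏ N_i < J^3/2^(k+1)` the sum is `0` (support, R_spc), also if
`∏ N_i > 2^k * 27J^3` (cof: `∏ N_i ≤ 2^k n`). Otherwise `N_i ≥ lo_i ≥ J^(1/12)` (a prime `≥ lo_i` is `≤ N_i`), `N_i ≤ 2 hi_i ≤ 2 J^(33/20)`, so
`t_i = log N_i/log J` satisfies the hypotheses of cmp for `J` large; LBa with `δ = 1/1000`. -/
def S_LB : Prop := R_LBa → R_cmp → R_dya → R_bxp → R_blk → R_cof → R_spc → I_LB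

/-- [CA LC LT] (uses bil, tiv, dvm, cvl, CH.D spc, tI) Large conductors for `cv c θ`. Proof: `cv c θ J n = ∑_{e d l = n} c_e θ_d`.
Put `ε = 1/1000`. Split `e ≤ J^(1+ε)` and `e > J^(1+ε)`. (i) `e > J^(1+ε)`: the bilinear form in `(e, m)`, `m = d l`, coefficients
`c_e` (bounded by `K`) and `β_m = ∑_{d ∣ m} θ_d`, `|β_m| ≤ d(m)^3`; dyadic blocks `E < e ≤ 2E`, `M < m ≤ 2M`, `J^3/8 ≤ E M ≤ 27J^3`,
`J^(1+ε)/2 ≤ E ≤ 27 J^(27/20)`, so `M ≥ J^(1.6)`: as in LBa (R_bil) `≤ R J^2/L^(A+5)` each. (ii) `e ≤ J^(1+ε)`, `e d > J^(1+ε)`: dyadic in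
`g = e d` (coefficient `γ_g = ∑_{ed = g, e ≤ J^(1+ε)} c_e θ_d`, at most `K d(g)^3`) and `l` (coefficient `1`), `J^(1+ε)/2 ≤ G ≤ J^(1.98)`, so the
block of `l` has size `≥ J^(1.02)/C`: again as in LBa. (iii) `e d ≤ J^(1+ε)`: for fixed `g` `|∑_l χ(l) wJ J j (g l)| ≤ 3r` (CH.D R_tI), total over the
characters `≤ R^2 * 3R * J^(1+ε) * L^C`, which is too large for `ε = 1/1000`; so take `ε = 1/10000` here:
`R^3 J^(1.0001) ≤ R J^(0.9996 + 1.0001)`, and (i), (ii) work with this `ε` as well (`J^(1+ε)/2 ≥ J^(1+ε/2)`). -/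
def S_LT : Prop := R_bil → R_dvm → R_cvl → R_spc → Pool.Agent.CH.D.R_tI → I_LT

end Pool.Agent.CA.LC
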